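import Pool.Agent.V7H66.BS.CNT

/-! Piece CNT: the final theorem. -/

set_option autoImplicit false
set_option linter.unusedSectionVars false

namespace Pool.Agent.V7H66.BS

open Finset Pool.Agent.V7H85.BS
open Pool.Agent.Results.MP_2c585b_nt.GoldInverseSum (chi chi_ne_one chi_equiv chi_apply)

section Gen

variable {K : Type} [Field K] [CharP K 2]

theorem conic_fwd {θ g g1 : K} (h0 : θ ≠ 0) (ha : D θ ≠ 0)
    (h : g ^ 2 + g1 ^ 2 + D θ * (g * g1) + D θ ^ 2 = 0) :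
    (g + θ * g1) / D θ ≠ 0 ∧ ((g + θ * g1) / D θ)⁻¹ = (g + θ⁻¹ * g1) / D θ ∧
      D ((g + θ * g1) / D θ) = g1 ∧ D ((g + θ * g1) / D θ / θ) = g := by
  have h2 : (2 : K) = 0 := CharTwo.two_eq_zero
  have hs : θ * θ⁻¹ = 1 := mul_inv_cancel₀ h0
  have e1 : (g + θ * g1) / D θ * ((g + θ⁻¹ * g1) / D θ) = 1 := by
    rw [div_mul_div_comm, div_eq_one_iff_eq (mul_ne_zero ha ha)]
    have : D θ = θ + θ⁻¹ := rfl
    generalize θ⁻¹ = s at *
    rw [this] at h ⊢
    linear_combination h + (g1 ^ 2) * hs - (θ + s) ^ 2 * h2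
  have e0 : (g + θ * g1) / D θ ≠ 0 := left_ne_zero_of_mul_eq_one e1
  have e2 : ((g + θ * g1) / D θ)⁻¹ = (g + θ⁻¹ * g1) / D θ :=
    (eq_inv_of_mul_eq_one_right e1).symm
  refine ⟨e0, e2, ?_, ?_⟩
  · unfold D at *
    rw [e2, ← add_div, div_eq_iff ha]
    linear_combination g * h2
  · have e3 : ((g + θ * g1) / D θ / θ)⁻¹ = ((g + θ⁻¹ * g1) / D θ) * θ := by
      rw [div_eq_mul_inv _ θ, mul_inv, inv_inv, e2]
    have e4 : D ((g + θ * g1) / D θ / θ) =
        (g + θ * g1) / D θ * θ⁻¹ + ((g + θ⁻¹ * g1) / D θ) * θ := by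
      rw [← e3, ← div_eq_mul_inv]
      rfl
    rw [e4]
    have : (g + θ * g1) / D θ * θ⁻¹ + ((g + θ⁻¹ * g1) / D θ) * θ =
        ((g + θ * g1) * θ⁻¹ + (g + θ⁻¹ * g1) * θ) / D θ := by ring
    rw [this, div_eq_iff ha]
    unfold D
    linear_combination (g1 * 2) * hs + g1 * h2

theorem conic_bwd {θ τ : K} (h0 : θ ≠ 0) (h1 : τ ≠ 0) :
    D (τ / θ) ^ 2 + D τ ^ 2 + D θ * (D (τ / θ) * D τ) + D θ ^ 2 = 0 := by
  have h2 : (2 : K) = 0 := CharTwo.two_eq_zero
  have e : D (τ / θ) ^ 2 + D τ ^ 2 + D θ * (D (τ / θ) * D τ) + D θ ^ 2 =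
      2 * (D (τ / θ) ^ 2 + D τ ^ 2 + D θ ^ 2 - 2) := by
    unfold D
    field_simp
    ring
  rw [e, h2, zero_mul]

theorem tau_eq {θ τ : K} (h0 : θ ≠ 0) (h1 : τ ≠ 0) (ha : D θ ≠ 0) :
    (D (τ / θ) + θ * D τ) / D θ = τ := by
  have h2 : (2 : K) = 0 := CharTwo.two_eq_zero
  rw [div_eq_iff ha]
  have e : D (τ / θ) + θ * D τ = τ * D θ + 2 * (θ * τ⁻¹) := by
    unfold D
    field_simp
    ring
  rw [e, h2]; ring

theorem step {θ τ : K} (h0 : θ ≠ 0) (h1 : τ ≠ 0) (k : ℕ) :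
    D τ = D (τ / θ) ^ 2 ^ k ↔ (τ ^ (2 ^ k - 1) = θ ^ 2 ^ k ∨ τ ^ (2 ^ k + 1) = θ ^ 2 ^ k) := by
  have hp : 2 ^ k - 1 + 1 = 2 ^ k := Nat.sub_add_cancel Nat.one_le_two_pow
  rw [D_pow]
  have hne : (τ / θ) ^ 2 ^ k ≠ 0 := pow_ne_zero _ (div_ne_zero h1 h0)
  have hθ : θ ^ 2 ^ k ≠ 0 := pow_ne_zero _ h0
  constructor
  · intro h
    rcases D_eq h1 hne h with e | e
    · left
      rw [div_pow, eq_div_iff hθ] at e
      apply mul_left_cancel₀ h1
      rw [e, ← pow_succ', hp]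
    · right
      rw [div_pow, inv_div, eq_div_iff (pow_ne_zero _ h1)] at e
      rw [← e, pow_succ']
  · rintro (e | e)
    · have : (τ / θ) ^ 2 ^ k = τ := by
        rw [div_pow, div_eq_iff hθ, ← e, ← pow_succ', hp]
      rw [this]
    · have : (τ / θ) ^ 2 ^ k = τ⁻¹ := by
        rw [div_pow, div_eq_iff hθ, ← e, pow_succ']
        field_simp
      rw [this, D_inv]

end Gen

section Fin

variable {F : Type} [Field F] [Fintype F] [DecidableEq F] {K : Type} [Field K] (i : F →+* K)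
variable [CharP K 2]

theorem card_image {a : F} (ha : a ≠ 0) {θ : K} (h0 : θ ≠ 0) (hθ : D θ = i a) (k : ℕ)
    (T : K → Prop) (hT0 : ∀ τ, T τ → τ ≠ 0)
    (h1 : ∀ τ, T τ → D (τ / θ) ^ Fintype.card F = D (τ / θ))
    (h2 : ∀ g g1 : F, i g ^ 2 + i g1 ^ 2 + D θ * (i g * i g1) + D θ ^ 2 = 0 →
      T ((i g + θ * i g1) / D θ)) :
    Nk F k a =
      {τ : K | T τ ∧ (τ ^ (2 ^ k - 1) = θ ^ 2 ^ k ∨ τ ^ (2 ^ k + 1) = θ ^ 2 ^ k)}.ncard := by
  have hD : D θ ≠ 0 := by rw [hθ]; simpa using ha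
  unfold Nk
  rw [← Set.ncard_coe_finset]
  have cn : ∀ g : F, g ^ 2 + (g ^ 2 ^ k) ^ 2 + a * (g * g ^ 2 ^ k) + a ^ 2 = 0 →
      i g ^ 2 + i (g ^ 2 ^ k) ^ 2 + D θ * (i g * i (g ^ 2 ^ k)) + D θ ^ 2 = 0 := by
    intro g hg
    rw [hθ]
    have := congrArg i hg
    simpa using this
  rw [← Set.ncard_image_of_injOn (f := fun g : F => (i g + θ * i (g ^ 2 ^ k)) / D θ)]
  · congr 1
    ext τ
    simp only [Set.mem_image, Finset.coe_filter, Set.mem_ofPred_eq, mem_univ, true_and]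
    constructor
    · rintro ⟨g, hg, rfl⟩
      obtain ⟨a1, a2, a3, a4⟩ := conic_fwd h0 hD (cn g hg)
      refine ⟨h2 _ _ (cn g hg), ?_⟩
      rw [← step h0 a1, a3, a4, map_pow]
    · rintro ⟨hT, hτ⟩
      have hτ0 := hT0 τ hT
      rw [← step h0 hτ0] at hτ
      obtain ⟨g, hg⟩ := fix i _ (h1 τ hT)
      have hg1 : i (g ^ 2 ^ k) = D τ := by rw [map_pow, hg, hτ]
      refine ⟨g, ?_, ?_⟩
      · apply i.injective
        have := conic_bwd h0 hτ0
        rw [← hg, ← hg1, hθ] at this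
        rw [map_zero, ← this]
        simp
      · rw [hg, hg1, tau_eq h0 hτ0 hD]
  · intro g hg g' hg' h
    simp only [Finset.coe_filter, Set.mem_ofPred_eq, mem_univ, true_and] at hg hg'
    obtain ⟨a1, a2, a3, a4⟩ := conic_fwd h0 hD (cn g hg)
    obtain ⟨b1, b2, b3, b4⟩ := conic_fwd h0 hD (cn g' hg')
    apply i.injective
    rw [← a4, ← b4]
    simp only at h
    rw [h]

theorem split_card {N k : ℕ} (hN : 0 < N) {θ : K} (h0 : θ ≠ 0) (h1 : θ ≠ 1) :
    {τ : K | τ ^ N = 1 ∧ (τ ^ (2 ^ k - 1) = θ ^ 2 ^ k ∨ τ ^ (2 ^ k + 1) = θ ^ 2 ^ k)}.ncard =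
      {τ : K | τ ^ N = 1 ∧ τ ^ (2 ^ k - 1) = θ ^ 2 ^ k}.ncard +
      {τ : K | τ ^ N = 1 ∧ τ ^ (2 ^ k + 1) = θ ^ 2 ^ k}.ncard := by
  have hfin : {τ : K | τ ^ N = 1}.Finite := by
    apply (Polynomial.nthRootsFinset N (1 : K)).finite_toSet.subset
    intro τ hτ
    rw [Finset.mem_coe, Polynomial.mem_nthRootsFinset hN]
    exact hτ
  rw [← Set.ncard_union_eq ?_ (hfin.subset fun τ h => h.1) (hfin.subset fun τ h => h.1)]
  · congr 1
    ext τ
    simp only [Set.mem_ofPred_eq, Set.mem_union]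
    tauto
  · rw [Set.disjoint_left]
    rintro τ ⟨a1, a2⟩ ⟨b1, b2⟩
    apply h1
    have hτ0 : τ ≠ 0 := by
      rintro rfl
      rw [zero_pow hN.ne'] at a1
      exact zero_ne_one a1
    have hp : 2 ^ k + 1 = (2 ^ k - 1) + 2 := by
      have : 1 ≤ 2 ^ k := Nat.one_le_two_pow
      omega
    rw [hp, pow_add, a2] at b2
    have h3 : τ ^ 2 = 1 := by
      apply mul_left_cancel₀ (pow_ne_zero (2 ^ k) h0)
      rw [b2, mul_one]
    have h4 := sq_one h3
    rw [h4, one_pow] at a2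
    exact pow_one' k a2.symm

end Fin

theorem t_CNT : S_CNT := by
  intro F _ _ _ _ n k hodd hn _ hkn a ha
  haveI : CharP F 2 := charP_of_injective_algebraMap (algebraMap (ZMod 2) F).injective 2
  obtain ⟨m, hm'⟩ := odd_three hodd
  have hm : Fintype.card F + 1 = 3 * m := by rw [hn]; exact hm'
  let K := AlgebraicClosure F
  haveI : CharP K 2 := charP_of_injective_algebraMap (algebraMap F K).injective 2
  let i : F →+* K := algebraMap F K
  obtain ⟨θ, h0, hθ⟩ := exists_D (i a)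
  have hθ1 := D_ne i ha hθ
  have hcard : 1 < Fintype.card F := Fintype.one_lt_card
  have pw : ∀ x : K, D x ^ Fintype.card F = D (x ^ Fintype.card F) := D_card hn
  rcases typ i hn h0 hθ with hs | hs
  · -- split
    rw [Gf_S i hn hm ha h0 hθ hs]
    have e1 : ∀ τ : K, τ ^ (Fintype.card F - 1) = 1 → τ ≠ 0 := by
      rintro τ h rfl
      rw [zero_pow (by omega)] at h
      exact zero_ne_one h
    have e2 : ∀ τ : K, τ ^ (Fintype.card F - 1) = 1 → τ ^ Fintype.card F = τ := by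
      intro τ h
      have : Fintype.card F = (Fintype.card F - 1) + 1 := by omega
      rw [this, pow_succ, h, one_mul]
    have e3 : ∀ τ : K, τ ≠ 0 → τ ^ Fintype.card F = τ → τ ^ (Fintype.card F - 1) = 1 := by
      intro τ h h'
      apply mul_right_cancel₀ h
      rw [← pow_succ, Nat.sub_add_cancel hcard.le, h', one_mul]
    rw [card_image i ha h0 hθ k (fun τ => τ ^ (Fintype.card F - 1) = 1) e1
      (fun τ h => by rw [pw, div_pow, e2 τ h, hs])]
    · rw [split_card (by omega) h0 hθ1]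
      have hb : (θ ^ 2 ^ k) ^ (Fintype.card F - 1) = 1 := by
        rw [← pow_mul, mul_comm, pow_mul, e3 θ h0 hs, one_pow]
      rw [U1 (by omega) (by rw [hn]; exact gcd1 hkn) hb,
        U1 (by omega) (by rw [hn]; exact gcd2 hodd hkn) hb]
      norm_num
    · intro g g1 hg
      obtain ⟨a1, a2, a3, a4⟩ := conic_fwd h0 (by rw [hθ]; simpa using ha) hg
      apply e3 _ a1
      rw [hθ, div_pow, fixF, hn, add_pow_char_pow, ← hn, mul_pow, fixF, fixF, hs]
  · -- nonsplit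
    rw [Gf_N i hn hm ha h0 hθ hs]
    have e1 : ∀ τ : K, τ ^ (Fintype.card F + 1) = 1 → τ ≠ 0 := by
      rintro τ h rfl
      rw [zero_pow (by omega)] at h
      exact zero_ne_one h
    have e2 : ∀ τ : K, τ ^ (Fintype.card F + 1) = 1 → τ ^ Fintype.card F = τ⁻¹ := by
      intro τ h
      rw [pow_succ] at h
      exact eq_inv_of_mul_eq_one_left h
    have e3 : ∀ τ : K, τ ≠ 0 → τ ^ Fintype.card F = τ⁻¹ → τ ^ (Fintype.card F + 1) = 1 := by
      intro τ h h'
      rw [pow_succ, h', inv_mul_cancel₀ h]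
    rw [card_image i ha h0 hθ k (fun τ => τ ^ (Fintype.card F + 1) = 1) e1
      (fun τ h => by rw [pw, div_pow, e2 τ h, hs, ← D_inv, inv_div, inv_div_inv])]
    · rw [split_card (by omega) h0 hθ1]
      obtain ⟨w, hw⟩ := exists_w (K := K)
      obtain ⟨β, hβ⟩ := IsAlgClosed.exists_pow_nat_eq (θ ^ 2 ^ k) (n := 3) (by norm_num)
      have hθN : θ ^ (Fintype.card F + 1) = 1 := e3 θ h0 hs
      have hb : (θ ^ 2 ^ k) ^ (Fintype.card F + 1) = 1 := by
        rw [← pow_mul, mul_comm, pow_mul, hθN, one_pow]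
      by_cases hc : θ ^ m = 1
      · have hβN : β ^ (Fintype.card F + 1) = 1 := by
          rw [hm, pow_mul, hβ, ← pow_mul, mul_comm, pow_mul, hc, one_pow]
        rcases gcd34 hodd hkn with ⟨g1, g2⟩ | ⟨g1, g2⟩
        · rw [U1 (by omega) (by rw [hn]; exact g1) hb, ← hβ,
            U3 (by omega) (by rw [hn]; exact g2) hβN hw]
          unfold gv
          rw [if_pos hc]
          norm_num
        · have := U1 (N := Fintype.card F + 1) (e := 2 ^ k + 1) (by omega)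
            (by rw [hn]; exact g2) hb
          rw [this, ← hβ, U3 (by omega) (by rw [hn]; exact g1) hβN hw]
          unfold gv
          rw [if_pos hc]
          norm_num
      · have hbm : (θ ^ 2 ^ k) ^ m ≠ 1 := by
          intro h
          apply hc
          rw [← pow_mul, mul_comm, pow_mul] at h
          exact pow_one' k h
        rcases gcd34 hodd hkn with ⟨g1, g2⟩ | ⟨g1, g2⟩
        · rw [U1 (by omega) (by rw [hn]; exact g1) hb,
            U0 hm (by rw [hn]; exact g2) hbm]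
          unfold gv
          rw [if_neg hc]
          norm_num
        · have := U1 (N := Fintype.card F + 1) (e := 2 ^ k + 1) (by omega)
            (by rw [hn]; exact g2) hb
          rw [this, U0 hm (by rw [hn]; exact g1) hbm]
          unfold gv
          rw [if_neg hc]
          norm_num
    · intro g g1 hg
      obtain ⟨a1, a2, a3, a4⟩ := conic_fwd h0 (by rw [hθ]; simpa using ha) hg
      apply e3 _ a1
      rw [a2, hθ, div_pow, fixF, hn, add_pow_char_pow, ← hn, mul_pow, fixF, fixF, hs]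

end Pool.Agent.V7H66.BS
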