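import Pool.Agent.V7H66.BS.GDFinal

/-! Piece CNT. -/

set_option autoImplicit false
set_option linter.unusedSectionVars false

namespace Pool.Agent.V7H66.BS

open Finset Pool.Agent.V7H85.BS
open Pool.Agent.Results.MP_2c585b_nt.GoldInverseSum (chi chi_ne_one chi_equiv chi_apply)

section NT

theorem gcd1 {k n : ℕ} (h : Nat.Coprime k n) : Nat.gcd (2 ^ k - 1) (2 ^ n - 1) = 1 := by
  rw [Nat.pow_sub_one_gcd_pow_sub_one, h]
  norm_num

theorem plus_dvd (k : ℕ) : 2 ^ k + 1 ∣ 2 ^ (2 * k) - 1 := by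
  refine ⟨2 ^ k - 1, ?_⟩
  rw [mul_comm 2 k, pow_mul, ← Nat.sq_sub_sq]

theorem gcd2 {k n : ℕ} (hn : Odd n) (h : Nat.Coprime k n) :
    Nat.gcd (2 ^ k + 1) (2 ^ n - 1) = 1 := by
  have h1 : Nat.gcd (2 ^ k + 1) (2 ^ n - 1) ∣ Nat.gcd (2 ^ (2 * k) - 1) (2 ^ n - 1) :=
    Nat.gcd_dvd_gcd_of_dvd_left _ (plus_dvd k)
  rw [Nat.pow_sub_one_gcd_pow_sub_one] at h1
  have h2 : Nat.gcd (2 * k) n = 1 := Nat.Coprime.mul_left hn.coprime_two_left h
  rw [h2] at h1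
  simpa using h1

theorem mod3 (k : ℕ) : 2 ^ (2 * k) % 3 = 1 := by
  rw [pow_mul, Nat.pow_mod]; norm_num

theorem gcd34 {k n : ℕ} (hn : Odd n) (h : Nat.Coprime k n) :
    (Nat.gcd (2 ^ k - 1) (2 ^ n + 1) = 1 ∧ Nat.gcd (2 ^ k + 1) (2 ^ n + 1) = 3) ∨
    (Nat.gcd (2 ^ k - 1) (2 ^ n + 1) = 3 ∧ Nat.gcd (2 ^ k + 1) (2 ^ n + 1) = 1) := by
  have h1 : Nat.gcd (2 ^ k + 1) (2 ^ n + 1) ∣ 3 := by
    have := Nat.gcd_dvd_gcd_of_dvd_left (2 ^ n + 1) (plus_dvd k)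
    have h2 := Nat.gcd_dvd_gcd_of_dvd_right (2 ^ (2 * k) - 1) (plus_dvd n)
    rw [Nat.pow_sub_one_gcd_pow_sub_one, Nat.gcd_mul_left, h] at h2
    exact this.trans h2
  have h2 : Nat.gcd (2 ^ k - 1) (2 ^ n + 1) ∣ 2 ^ (Nat.gcd k 2) - 1 := by
    have h3 := Nat.gcd_dvd_gcd_of_dvd_right (2 ^ k - 1) (plus_dvd n)
    rw [Nat.pow_sub_one_gcd_pow_sub_one, Nat.Coprime.gcd_mul_right_cancel_right 2 h.symm] at h3
    exact h3
  obtain ⟨m, hm⟩ := odd_three hn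
  have h3 : 3 ∣ 2 ^ n + 1 := ⟨m, hm⟩
  rcases Nat.even_or_odd k with he | ho
  · right
    obtain ⟨j, hj⟩ := he
    have hj2 : k = 2 * j := by omega
    have e1 : 2 ^ k % 3 = 1 := by rw [hj2]; exact mod3 j
    have hp : 1 ≤ 2 ^ k := Nat.one_le_two_pow
    refine ⟨?_, ?_⟩
    · have h4 : Nat.gcd k 2 = 2 := Nat.gcd_eq_right ⟨j, hj2⟩
      rw [h4] at h2
      apply Nat.dvd_antisymm h2
      exact Nat.dvd_gcd (by omega) h3
    · rcases (Nat.dvd_prime Nat.prime_three).1 h1 with h5 | h5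
      · exact h5
      · exfalso
        have : 3 ∣ 2 ^ k + 1 := h5 ▸ Nat.gcd_dvd_left _ _
        omega
  · left
    refine ⟨?_, ?_⟩
    · have h4 : Nat.gcd k 2 = 1 := ho.coprime_two_right
      rw [h4] at h2
      simpa using h2
    · apply Nat.dvd_antisymm h1
      obtain ⟨m', hm'⟩ := odd_three ho
      exact Nat.dvd_gcd ⟨m', hm'⟩ h3

end NT

section Sol

variable {K : Type} [Field K]

theorem bez {x : K} (h0 : x ≠ 0) {N e : ℕ} (hx : x ^ N = 1) :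
    x ^ (Nat.gcd e N) = (x ^ (Nat.gcdA e N)) ^ e := by
  have h1 := Nat.gcd_eq_gcd_ab e N
  have h2 : x ^ (Nat.gcd e N) = x ^ ((Nat.gcd e N : ℕ) : ℤ) := (zpow_natCast _ _).symm
  rw [h2, h1, zpow_add₀ h0, zpow_mul x (N : ℤ), zpow_natCast x N, hx, one_zpow, mul_one,
    mul_comm, zpow_mul, zpow_natCast]

theorem U1 {N e : ℕ} (hN : 0 < N) (he : Nat.gcd e N = 1) {b : K} (hb : b ^ N = 1) :
    {τ : K | τ ^ N = 1 ∧ τ ^ e = b}.ncard = 1 := by
  have ne0 : ∀ x : K, x ^ N = 1 → x ≠ 0 := by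
    rintro x hx rfl
    rw [zero_pow hN.ne'] at hx
    exact zero_ne_one hx
  rw [Set.ncard_eq_one]
  refine ⟨b ^ (Nat.gcdA e N), ?_⟩
  ext τ
  simp only [Set.mem_ofPred_eq, Set.mem_singleton_iff]
  constructor
  · rintro ⟨h1, h2⟩
    have h3 := bez (ne0 τ h1) (e := e) h1
    rw [he, pow_one] at h3
    rw [h3, ← h2, ← zpow_natCast, ← zpow_natCast, ← zpow_mul, ← zpow_mul, mul_comm]
  · rintro rfl
    refine ⟨?_, ?_⟩
    · rw [← zpow_natCast, ← zpow_mul, mul_comm, zpow_mul, zpow_natCast, hb, one_zpow]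
    · have h3 := bez (ne0 b hb) (e := e) hb
      rw [he, pow_one] at h3
      exact h3.symm

theorem U0 {N e m : ℕ} (hm : N = 3 * m) (he : Nat.gcd e N = 3) {b : K} (hb : b ^ m ≠ 1) :
    {τ : K | τ ^ N = 1 ∧ τ ^ e = b} = ∅ := by
  rw [Set.eq_empty_iff_forall_notMem]
  rintro τ ⟨h1, h2⟩
  obtain ⟨j, hj⟩ : 3 ∣ e := he ▸ Nat.gcd_dvd_left e N
  apply hb
  rw [← h2, ← pow_mul, hj]
  have : 3 * j * m = N * j := by rw [hm]; ring
  rw [this, pow_mul, h1, one_pow]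

variable [CharP K 2]

theorem U3 {N e : ℕ} (hN : 0 < N) (he : Nat.gcd e N = 3) {β w : K} (hβ : β ^ N = 1)
    (hw : w ^ 2 + w + 1 = 0) : {τ : K | τ ^ N = 1 ∧ τ ^ e = β ^ 3}.ncard = 3 := by
  have ne0 : ∀ x : K, x ^ N = 1 → x ≠ 0 := by
    rintro x hx rfl
    rw [zero_pow hN.ne'] at hx
    exact zero_ne_one hx
  have h3 := bez (ne0 β hβ) (e := e) hβ
  rw [he] at h3
  have h4 : (β ^ (Nat.gcdA e N)) ^ N = 1 := by
    rw [← zpow_natCast, ← zpow_mul, mul_comm, zpow_mul, zpow_natCast, hβ, one_zpow]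
  generalize β ^ (Nat.gcdA e N) = τ0 at h3 h4
  have hτ0 := ne0 _ h4
  obtain ⟨j, hj⟩ : 3 ∣ e := he ▸ Nat.gcd_dvd_left e N
  obtain ⟨l, hl⟩ : 3 ∣ N := he ▸ Nat.gcd_dvd_right e N
  have hw3 := w_cube hw
  have hwe : w ^ e = 1 := by rw [hj, pow_mul, hw3, one_pow]
  have hwN : w ^ N = 1 := by rw [hl, pow_mul, hw3, one_pow]
  have hw0 := w_ne hw
  have hw1 : w ≠ 1 := by
    rintro rfl
    have : (1 : K) ^ 2 + 1 + 1 = 2 + 1 := by ring
    rw [this, CharTwo.two_eq_zero, zero_add] at hw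
    exact one_ne_zero hw
  have hw2 : w ^ 2 ≠ 1 := fun h => hw1 (sq_one h)
  rw [Set.ncard_eq_three]
  refine ⟨τ0, τ0 * w, τ0 * w ^ 2, ?_, ?_, ?_, ?_⟩
  · intro h
    apply hw1
    apply mul_left_cancel₀ hτ0
    rw [← h, mul_one]
  · intro h
    apply hw2
    apply mul_left_cancel₀ hτ0
    rw [← h, mul_one]
  · intro h
    apply hw1
    apply mul_left_cancel₀ hw0
    apply mul_left_cancel₀ hτ0
    rw [mul_one, h, sq]
  · ext τ
    simp only [Set.mem_ofPred_eq, Set.mem_insert_iff, Set.mem_singleton_iff]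
    constructor
    · rintro ⟨h1, h2⟩
      have e1 : (τ / τ0) ^ N = 1 := by rw [div_pow, h1, h4, div_one]
      have e2 : (τ / τ0) ^ e = 1 := by
        rw [div_pow, h2, h3, div_self (pow_ne_zero _ hτ0)]
      have e3 : (τ / τ0) ^ 3 = 1 := by
        have := pow_gcd_eq_one.2 ⟨e2, e1⟩
        rwa [he] at this
      have e4 : (τ / τ0 - 1) * ((τ / τ0 - w) * (τ / τ0 - w ^ 2)) = 0 := by
        generalize τ / τ0 = y at e3
        linear_combination e3 + (-(y - 1) * y + (y - 1) * (w - 1)) * hw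
      rcases mul_eq_zero.1 e4 with e | e
      · left
        exact (div_eq_one_iff_eq hτ0).1 (sub_eq_zero.1 e)
      · rcases mul_eq_zero.1 e with e | e
        · right; left
          have := sub_eq_zero.1 e
          rw [div_eq_iff hτ0] at this
          rw [this, mul_comm]
        · right; right
          have := sub_eq_zero.1 e
          rw [div_eq_iff hτ0] at this
          rw [this, mul_comm]
    · rintro (h | h | h)
      · rw [h]; exact ⟨h4, h3.symm⟩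
      · rw [h, mul_pow, mul_pow, hwe, hwN, mul_one, mul_one]; exact ⟨h4, h3.symm⟩
      · rw [h, mul_pow, mul_pow, ← pow_mul, ← pow_mul, mul_comm 2, mul_comm 2, pow_mul, pow_mul w,
          hwe, hwN, one_pow, mul_one, mul_one]
        exact ⟨h4, h3.symm⟩

end Sol

end Pool.Agent.V7H66.BS
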