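import Pool.Agent.V7H66.BS.Cubic

/-! The number of roots of `r³ + r = a` in the finite field. -/

set_option autoImplicit false

namespace Pool.Agent.V7H66.BS

open Finset

variable {F : Type} [Field F] [Fintype F] [DecidableEq F] {K : Type} [Field K] (i : F →+* K)
variable [CharP K 2]

omit [Fintype F] [DecidableEq F] in
theorem roots {a : F} {ρ w : K} (h0 : ρ ≠ 0) (hw : w ^ 2 + w + 1 = 0) (h : D (ρ ^ 3) = i a)
    (r : F) : r ^ 3 + r = a ↔ i r = D ρ ∨ i r = D (ρ * w) ∨ i r = D (ρ * w ^ 2) := by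
  have h1 := cubic h0 hw (i r)
  rw [h] at h1
  have h2 : r ^ 3 + r = a ↔ i r ^ 3 + i r + i a = 0 := by
    rw [CharTwo.add_eq_zero]
    constructor
    · intro h; rw [← h]; simp
    · intro h; apply i.injective; simpa using h
  rw [h2, ← h1, mul_eq_zero, mul_eq_zero, CharTwo.add_eq_zero, CharTwo.add_eq_zero,
    CharTwo.add_eq_zero, or_assoc]

omit [Fintype F] [DecidableEq F] in
theorem distinct {a : F} (ha : a ≠ 0) {ρ w : K} (h0 : ρ ≠ 0) (hw : w ^ 2 + w + 1 = 0)
    (h : D (ρ ^ 3) = i a) :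
    D ρ ≠ D (ρ * w) ∧ D ρ ≠ D (ρ * w ^ 2) ∧ D (ρ * w) ≠ D (ρ * w ^ 2) := by
  have h1 := cubic h0 hw 0
  have h2 := sum_zero (ρ := ρ) hw
  rw [h] at h1
  have h3 : i a ≠ 0 := by simpa using ha
  refine ⟨fun e => h3 ?_, fun e => h3 ?_, fun e => h3 ?_⟩
  · rw [e, CharTwo.add_self_eq_zero, zero_add] at h2
    rw [h2] at h1
    simpa using h1.symm
  · rw [e, add_right_comm, CharTwo.add_self_eq_zero, zero_add] at h2
    rw [h2] at h1
    simpa using h1.symm
  · rw [e, add_assoc, CharTwo.add_self_eq_zero, add_zero] at h2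
    rw [h2] at h1
    simpa using h1.symm

theorem D_ne {a : F} (ha : a ≠ 0) {θ : K} (h : D θ = i a) : θ ≠ 1 := by
  rintro rfl
  rw [D_one] at h
  exact ha (by simpa using h.symm)

omit [DecidableEq F] in
theorem w_card {m : ℕ} (hm : Fintype.card F + 1 = 3 * m) {w : K} (hw : w ^ 2 + w + 1 = 0) :
    w ^ Fintype.card F = w ^ 2 := by
  have h1 : w ^ (Fintype.card F + 1) = 1 := by rw [hm, pow_mul, w_cube hw, one_pow]
  rw [pow_succ] at h1
  have := eq_inv_of_mul_eq_one_left h1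
  rw [this, w_inv hw]

variable [IsAlgClosed K]

/-- split elements: exactly one root. -/
theorem GS {n m : ℕ} (hn : Fintype.card F = 2 ^ n) (hm : Fintype.card F + 1 = 3 * m) {a : F}
    (ha : a ≠ 0) {θ : K} (h0 : θ ≠ 0) (h : D θ = i a) (hs : θ ^ Fintype.card F = θ) :
    (univ.filter fun r : F => r ^ 3 + r = a).card = 1 := by
  obtain ⟨w, hw⟩ := exists_w (K := K)
  have hm1 : 1 ≤ m := by omega
  have hs1 : θ ^ (Fintype.card F - 1) = 1 := by
    have h1 : θ ^ (Fintype.card F - 1) * θ = θ := by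
      rw [← pow_succ]
      rw [Nat.sub_add_cancel (Fintype.card_pos)]
      exact hs
    exact mul_right_cancel₀ h0 (by rw [h1, one_mul])
  set ρ := θ ^ (2 * m - 1) with hρ
  have hρ0 : ρ ≠ 0 := pow_ne_zero _ h0
  have hρ3 : ρ ^ 3 = θ := by
    rw [hρ, ← pow_mul]
    have : (2 * m - 1) * 3 = (Fintype.card F - 1) * 2 + 1 := by omega
    rw [this, pow_succ, pow_mul, hs1]; simp
  have hρc : ρ ^ Fintype.card F = ρ := by
    rw [hρ, ← pow_mul, mul_comm, pow_mul, hs]
  have hD : D (ρ ^ 3) = i a := by rw [hρ3, h]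
  obtain ⟨d1, d2, d3⟩ := distinct i ha hρ0 hw hD
  obtain ⟨r0, hr0⟩ := fix i (D ρ) (by rw [hn, D_pow, ← hn, hρc])
  have hwc := w_card (F := F) hm hw
  have e1 : D (ρ * w) ^ Fintype.card F = D (ρ * w ^ 2) := by
    rw [hn, D_pow, ← hn, mul_pow, hρc, hwc]
  rw [Finset.card_eq_one]
  refine ⟨r0, ?_⟩
  ext r
  rw [Finset.mem_filter, Finset.mem_singleton, roots i hρ0 hw hD]
  constructor
  · rintro ⟨_, h1 | h1 | h1⟩
    · exact i.injective (h1.trans hr0.symm)
    · exfalso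
      have := fixF i r
      rw [h1, e1] at this
      exact d3 this.symm
    · exfalso
      have := fixF i r
      rw [h1] at this
      have h2 : D (ρ * w ^ 2) ^ Fintype.card F = D (ρ * w) := by
        rw [hn, D_pow, ← hn, mul_pow, hρc, ← pow_mul, mul_comm 2, pow_mul, hwc]
        have : (w ^ 2) ^ 2 = w := by linear_combination w * w_cube hw
        rw [this]
      rw [h2] at this
      exact d3 this
  · rintro rfl
    exact ⟨mem_univ _, Or.inl hr0⟩

/-- nonsplit elements. -/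
theorem GN {n m : ℕ} (hn : Fintype.card F = 2 ^ n) (hm : Fintype.card F + 1 = 3 * m) {a : F}
    (ha : a ≠ 0) {θ : K} (h0 : θ ≠ 0) (h : D θ = i a) (hs : θ ^ Fintype.card F = θ⁻¹)
    [Decidable (θ ^ m = 1)] :
    (univ.filter fun r : F => r ^ 3 + r = a).card = if θ ^ m = 1 then 3 else 0 := by
  obtain ⟨w, hw⟩ := exists_w (K := K)
  obtain ⟨ρ, hρ3⟩ := IsAlgClosed.exists_pow_nat_eq θ (n := 3) (by norm_num)
  have hρ0 : ρ ≠ 0 := by rintro rfl; apply h0; rw [← hρ3]; simp
  have hD : D (ρ ^ 3) = i a := by rw [hρ3, h]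
  obtain ⟨d1, d2, d3⟩ := distinct i ha hρ0 hw hD
  have hwc := w_card (F := F) hm hw
  have hθ1 : θ ≠ 1 := D_ne i ha h
  split_ifs with hc
  · have hρc : ρ ^ Fintype.card F = ρ⁻¹ := by
      have : ρ ^ (Fintype.card F + 1) = 1 := by rw [hm, pow_mul, hρ3, hc]
      rw [pow_succ] at this
      exact eq_inv_of_mul_eq_one_left this
    have e1 : D (ρ * w) ^ Fintype.card F = D (ρ * w) := by
      rw [hn, D_pow, ← hn, mul_pow, hρc, hwc, ← D_inv, mul_inv, w2_inv hw, inv_inv]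
    have e2 : D (ρ * w ^ 2) ^ Fintype.card F = D (ρ * w ^ 2) := by
      rw [hn, D_pow, ← hn, mul_pow, hρc, ← pow_mul, mul_comm 2, pow_mul, hwc]
      have : (w ^ 2) ^ 2 = w := by linear_combination w * w_cube hw
      rw [this, ← D_inv, mul_inv, inv_inv, w_inv hw]
    obtain ⟨r0, hr0⟩ := fix i (D ρ) (by rw [hn, D_pow, ← hn, hρc, D_inv])
    obtain ⟨r1, hr1⟩ := fix i (D (ρ * w)) e1
    obtain ⟨r2, hr2⟩ := fix i (D (ρ * w ^ 2)) e2
    rw [Finset.card_eq_three]
    refine ⟨r0, r1, r2, ?_, ?_, ?_, ?_⟩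
    · rintro rfl; exact d1 (hr0.symm.trans hr1)
    · rintro rfl; exact d2 (hr0.symm.trans hr2)
    · rintro rfl; exact d3 (hr1.symm.trans hr2)
    · ext r
      rw [Finset.mem_filter, roots i hρ0 hw hD, ← hr0, ← hr1, ← hr2]
      simp [i.injective.eq_iff]
  · rw [Finset.card_eq_zero, Finset.filter_eq_empty_iff]
    intro r _ hr
    rw [roots i hρ0 hw hD] at hr
    have key : ∀ x : K, x ≠ 0 → x ^ 3 = θ → i r = D x → False := by
      intro x hx0 hx3 hxr
      rcases typ i hn hx0 hxr.symm with h1 | h1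
      · have h2 : θ ^ Fintype.card F = θ := by
          rw [← hx3, ← pow_mul, mul_comm, pow_mul, h1]
        rw [hs] at h2
        apply hθ1
        apply sq_one
        rw [sq]
        nth_rw 1 [← h2]
        exact inv_mul_cancel₀ h0
      · apply hc
        rw [← hx3, ← pow_mul, ← hm, pow_succ, h1]
        exact inv_mul_cancel₀ hx0
    rcases hr with hr | hr | hr
    · exact key _ hρ0 hρ3 hr
    · exact key _ (mul_ne_zero hρ0 (w_ne hw)) (by rw [mul_pow, w_cube hw, hρ3, mul_one]) hr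
    · refine key _ (mul_ne_zero hρ0 (pow_ne_zero _ (w_ne hw))) ?_ hr
      rw [mul_pow, ← pow_mul, mul_comm 2, pow_mul, w_cube hw, hρ3, one_pow, mul_one]

end Pool.Agent.V7H66.BS
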