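import Pool.Agent.V7H66.BS.Mu

/-! The number of roots of `r³ + r = a`. -/

set_option autoImplicit false

namespace Pool.Agent.V7H66.BS

open Finset

section Gen

variable {K : Type} [Field K]

theorem w_cube {w : K} (hw : w ^ 2 + w + 1 = 0) : w ^ 3 = 1 := by
  linear_combination (w - 1) * hw

theorem w_ne {w : K} (hw : w ^ 2 + w + 1 = 0) : w ≠ 0 := by
  rintro rfl; simp at hw

theorem w_inv {w : K} (hw : w ^ 2 + w + 1 = 0) : w⁻¹ = w ^ 2 := by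
  rw [inv_eq_iff_eq_inv]
  exact eq_inv_of_mul_eq_one_left (by linear_combination w_cube hw)

theorem w2_inv {w : K} (hw : w ^ 2 + w + 1 = 0) : (w ^ 2)⁻¹ = w := by
  rw [← w_inv hw, inv_inv]

theorem exists_w [IsAlgClosed K] : ∃ w : K, w ^ 2 + w + 1 = 0 := by
  obtain ⟨w, hw⟩ := IsAlgClosed.exists_root (Polynomial.X ^ 2 + Polynomial.X + 1)
    (by
      have : (Polynomial.X ^ 2 + Polynomial.X + 1 : Polynomial K).degree = 2 := by
        have : (Polynomial.X ^ 2 + Polynomial.X + 1 : Polynomial K) =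
          Polynomial.C 1 * Polynomial.X ^ 2 + Polynomial.C 1 * Polynomial.X +
            Polynomial.C 1 := by simp
        rw [this]
        exact Polynomial.degree_quadratic one_ne_zero
      rw [this]; decide)
  exact ⟨w, by simpa using hw⟩

theorem sum_zero {ρ w : K} (hw : w ^ 2 + w + 1 = 0) :
    D ρ + D (ρ * w) + D (ρ * w ^ 2) = 0 := by
  unfold D
  rw [mul_inv, mul_inv, w_inv hw, w2_inv hw]
  linear_combination (ρ + ρ⁻¹) * hw

theorem prod12 {ρ w : K} (h0 : ρ ≠ 0) (hw : w ^ 2 + w + 1 = 0) :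
    D (ρ * w) * D (ρ * w ^ 2) = ρ ^ 2 + ρ⁻¹ ^ 2 - 1 := by
  unfold D
  rw [mul_inv, mul_inv, w_inv hw, w2_inv hw]
  have h1 : ρ * ρ⁻¹ = 1 := mul_inv_cancel₀ h0
  have h3 := w_cube hw
  linear_combination (ρ ^ 2 + ρ⁻¹ ^ 2 + w) * h3 + (w ^ 2 + w ^ 4) * h1 + hw

theorem cubic0 {ρ w : K} (h0 : ρ ≠ 0) (hw : w ^ 2 + w + 1 = 0) (x : K) :
    (x - D ρ) * (x - D (ρ * w)) * (x - D (ρ * w ^ 2)) = x ^ 3 - 3 * x - D (ρ ^ 3) := by
  have h1 := prod12 h0 hw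
  have h2 := sum_zero (ρ := ρ) hw
  have h3 : D (ρ ^ 3) = ρ ^ 3 + ρ⁻¹ ^ 3 := by unfold D; rw [inv_pow]
  have h4 : ρ * ρ⁻¹ = 1 := mul_inv_cancel₀ h0
  have h5 : D ρ = ρ + ρ⁻¹ := rfl
  generalize D (ρ * w) = x1 at h1 h2 ⊢
  generalize D (ρ * w ^ 2) = x2 at h1 h2 ⊢
  rw [h3]
  rw [h5] at h2 ⊢
  generalize ρ⁻¹ = s at *
  linear_combination (x - (ρ + s)) * h1 - (x - (ρ + s)) * x * h2 +
    (-2 * x + (ρ + s) * 0 - (ρ + s) * 1) * h4

variable [CharP K 2]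

theorem cubic {ρ w : K} (h0 : ρ ≠ 0) (hw : w ^ 2 + w + 1 = 0) (x : K) :
    (x + D ρ) * (x + D (ρ * w)) * (x + D (ρ * w ^ 2)) = x ^ 3 + x + D (ρ ^ 3) := by
  have h := cubic0 h0 hw x
  have h2 : (2 : K) = 0 := CharTwo.two_eq_zero
  simp only [CharTwo.sub_eq_add] at h
  rw [h]
  linear_combination x * h2

end Gen

end Pool.Agent.V7H66.BS
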