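import Pool.Agent.V7H66.BS.Count

/-! Piece GD. -/

set_option autoImplicit false
set_option linter.unusedSectionVars false

namespace Pool.Agent.V7H66.BS

open Finset Pool.Agent.V7H85.BS
open Pool.Agent.Results.MP_2c585b_nt.GoldInverseSum (chi chi_ne_one chi_equiv chi_apply)

section One

variable {F : Type} [Field F] [Fintype F] [DecidableEq F] [CharP F 2]

theorem cubeF (r : F) : r ^ 3 + r = r * (r + 1) ^ 2 := by
  rw [CharTwo.add_sq]; ring

theorem Gf0 : Gf F 0 = 1 := by
  unfold Gf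
  have : (univ.filter fun r : F => r ^ 3 + r = 0) = {0, 1} := by
    ext r
    rw [Finset.mem_filter, cubeF, mul_eq_zero, pow_eq_zero_iff two_ne_zero, CharTwo.add_eq_zero]
    simp
  rw [this, Finset.card_pair zero_ne_one]
  norm_num

theorem Gf_sum : ∑ c, Gf F c = 0 := by
  unfold Gf
  rw [Finset.sum_sub_distrib, ← Nat.cast_sum]
  have h : ∑ c : F, (univ.filter fun r : F => r ^ 3 + r = c).card = Fintype.card F := by
    rw [← Finset.card_univ, Finset.card_eq_sum_card_fiberwise (t := univ)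
      (f := fun r : F => r ^ 3 + r) (by simp)]
  rw [h]
  simp

theorem Gf_sq (c : F) : Gf F (c ^ 2) = Gf F c := by
  unfold Gf
  congr 2
  symm
  apply Finset.card_bij (fun r _ => r ^ 2)
  · intro r hr
    rw [Finset.mem_filter] at hr ⊢
    refine ⟨mem_univ _, ?_⟩
    rw [← hr.2, CharTwo.add_sq]
    ring
  · intro x _ y _ h
    exact sq_inj.1 h
  · intro r hr
    rw [Finset.mem_filter] at hr
    obtain ⟨s, hs⟩ := exists_sq r
    refine ⟨s, ?_, hs.symm⟩
    rw [Finset.mem_filter]
    refine ⟨mem_univ _, ?_⟩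
    apply sq_inj.1
    rw [← hr.2, hs, CharTwo.add_sq]
    ring

theorem Gf_conj (c : F) : (starRingEnd ℂ) (Gf F c) = Gf F c := by
  unfold Gf
  simp

end One

section Two

variable {F : Type} [Field F] [Fintype F] [DecidableEq F] {K : Type} [Field K] (i : F →+* K)
variable [CharP K 2] [IsAlgClosed K]

/-- the value on nonsplit elements -/
noncomputable def gv (m : ℕ) (x : K) : ℂ := by
  classical
  exact if x ^ m = 1 then 2 else -1

theorem Gf_S {n m : ℕ} (hn : Fintype.card F = 2 ^ n) (hm : Fintype.card F + 1 = 3 * m) {a : F}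
    (ha : a ≠ 0) {θ : K} (h0 : θ ≠ 0) (h : D θ = i a) (hs : θ ^ Fintype.card F = θ) :
    Gf F a = 0 := by
  unfold Gf
  rw [GS i hn hm ha h0 h hs]
  simp

theorem Gf_N {n m : ℕ} (hn : Fintype.card F = 2 ^ n) (hm : Fintype.card F + 1 = 3 * m) {a : F}
    (ha : a ≠ 0) {θ : K} (h0 : θ ≠ 0) (h : D θ = i a) (hs : θ ^ Fintype.card F = θ⁻¹) :
    Gf F a = gv m θ := by
  classical
  unfold Gf gv
  rw [GN i hn hm ha h0 h hs]
  split_ifs <;> norm_num

theorem gv_mul {Q m : ℕ} (hm : Q + 1 = 3 * m) {θ φ : K} (h0 : θ ≠ 0) (h1 : φ ≠ 0)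
    (hs : θ ^ Q = θ⁻¹) (ht : φ ^ Q = φ⁻¹) :
    gv m θ * gv m φ = gv m (θ * φ) + gv m (θ * φ⁻¹) := by
  classical
  have e1 : (θ ^ m) ^ 3 = 1 := by
    rw [← pow_mul, mul_comm, ← hm, pow_succ, hs, inv_mul_cancel₀ h0]
  have e2 : (φ ^ m) ^ 3 = 1 := by
    rw [← pow_mul, mul_comm, ← hm, pow_succ, ht, inv_mul_cancel₀ h1]
  unfold gv
  rw [mul_pow, mul_pow, inv_pow]
  generalize θ ^ m = x at *
  generalize φ ^ m = y at *
  have hy0 : y ≠ 0 := by rintro rfl; simp at e2
  by_cases hx : x = 1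
  · subst hx
    by_cases hy : y = 1
    · subst hy; norm_num
    · have : y⁻¹ ≠ 1 := by simpa using hy
      simp only [one_mul, if_neg hy, if_neg this, if_true]
      norm_num
  · by_cases hy : y = 1
    · subst hy
      simp only [inv_one, mul_one, if_neg hx, if_true]
      norm_num
    · have f1 : x ^ 2 + x + 1 = 0 := by
        have : (x - 1) * (x ^ 2 + x + 1) = 0 := by linear_combination e1
        rcases mul_eq_zero.1 this with h | h
        · exact absurd (sub_eq_zero.1 h) hx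
        · exact h
      have f2 : y ^ 2 + y + 1 = 0 := by
        have : (y - 1) * (y ^ 2 + y + 1) = 0 := by linear_combination e2
        rcases mul_eq_zero.1 this with h | h
        · exact absurd (sub_eq_zero.1 h) hy
        · exact h
      have f3 : (x - y) * (x + y + 1) = 0 := by linear_combination f1 - f2
      rcases mul_eq_zero.1 f3 with h | h
      · have hxy : x = y := sub_eq_zero.1 h
        subst hxy
        have g1 : x * x ≠ 1 := by
          intro hh
          apply hx
          exact sq_one (by rw [sq]; exact hh)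
        have g2 : x * x⁻¹ = 1 := mul_inv_cancel₀ hy0
        simp only [if_neg hx, if_neg g1, g2, if_true]
        norm_num
      · have g1 : x * y = 1 := by
          have : x = -y - 1 := by linear_combination h
          rw [this]
          linear_combination -f2
        have g2 : x * y⁻¹ ≠ 1 := by
          intro hh
          have : x = y := by
            field_simp at hh
            exact hh
          subst this
          exact hx (sq_one (by rw [sq]; exact g1))
        simp only [if_neg hx, if_neg hy, if_neg g2, g1, if_true]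
        norm_num

theorem chi_val {F : Type} [Field F] [Fintype F] [Algebra (ZMod 2) F] (x : F) :
    chi F x = 1 ∨ chi F x = -1 := by
  rw [chi_apply]
  rcases neg_one_pow_eq_or ℤ (Algebra.trace (ZMod 2) F x).val with h | h <;> rw [h] <;> simp

theorem chi_sq {F : Type} [Field F] [Fintype F] [Algebra (ZMod 2) F] [CharP F 2] (x : F) :
    chi F (x ^ 2) = chi F x := chi_equiv (frobeniusEquiv F 2) x

/-- the Artin-Schreier equation -/
theorem AS' [Algebra (ZMod 2) F] [CharP F 2] (τ : F) :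
    ((univ.filter fun w : F => w ^ 2 + w = τ).card : ℂ) = 1 + chi F τ := by
  rw [← AS (chi F) chi_ne_one chi_sq τ]
  simp

theorem chi_S [Algebra (ZMod 2) F] [CharP F 2] {a : F}
    (ha : a ≠ 0) {θ : K} (h0 : θ ≠ 0) (h : D θ = i a) (hs : θ ^ Fintype.card F = θ) :
    chi F a⁻¹ = 1 := by
  obtain ⟨t, ht⟩ := fix i θ hs
  have ht0 : t ≠ 0 := by rintro rfl; apply h0; rw [← ht]; simp
  have ht1 : t + 1 ≠ 0 := by
    intro e
    apply D_ne i ha h
    rw [← ht, CharTwo.add_eq_zero.1 e, map_one]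
  have hta : t + t⁻¹ = a := by
    apply i.injective
    rw [← h, ← ht]
    simp [D]
  have hw : ((t + 1)⁻¹) ^ 2 + (t + 1)⁻¹ = a⁻¹ := by
    rw [← hta]
    have e1 : (t + 1) ^ 2 = t * (t + t⁻¹) := by
      rw [CharTwo.add_sq]
      field_simp
    have e2 : ((t + 1)⁻¹) ^ 2 + (t + 1)⁻¹ = (1 + (t + 1)) / (t + 1) ^ 2 := by
      field_simp
    rw [e2, e1]
    have e3 : 1 + (t + 1) = t := by rw [add_comm, add_assoc, CharTwo.add_self_eq_zero, add_zero]
    rw [e3, div_mul_eq_div_div, div_self ht0, one_div]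
  rcases chi_val a⁻¹ with h1 | h1
  · exact h1
  · exfalso
    have h2 := AS' a⁻¹
    rw [h1, add_neg_cancel] at h2
    have h3 : (univ.filter fun w : F => w ^ 2 + w = a⁻¹).card = 0 := by exact_mod_cast h2
    rw [Finset.card_eq_zero, Finset.filter_eq_empty_iff] at h3
    exact h3 (mem_univ _) hw

theorem chi_N [Algebra (ZMod 2) F] [CharP F 2] {a : F}
    (ha : a ≠ 0) {θ : K} (h0 : θ ≠ 0) (h : D θ = i a) (hs : θ ^ Fintype.card F = θ⁻¹) :
    chi F a⁻¹ = -1 := by
  have hθ1 : θ ≠ 1 := D_ne i ha h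
  have h3 : (univ.filter fun w : F => w ^ 2 + w = a⁻¹) = ∅ := by
    rw [Finset.filter_eq_empty_iff]
    intro w _ hw
    have hθ2 : θ + 1 ≠ 0 := fun e => hθ1 (CharTwo.add_eq_zero.1 e)
    have e1 : (i w) ^ 2 + i w = (i a)⁻¹ := by rw [← map_inv₀, ← hw]; simp
    have e2 : ((θ + 1)⁻¹) ^ 2 + (θ + 1)⁻¹ = (i a)⁻¹ := by
      rw [← h]
      unfold D
      have e1 : (θ + 1) ^ 2 = θ * (θ + θ⁻¹) := by
        rw [CharTwo.add_sq]
        field_simp
      have e2 : ((θ + 1)⁻¹) ^ 2 + (θ + 1)⁻¹ = (1 + (θ + 1)) / (θ + 1) ^ 2 := by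
        field_simp
      rw [e2, e1]
      have e3 : 1 + (θ + 1) = θ := by
        rw [add_comm, add_assoc, CharTwo.add_self_eq_zero, add_zero]
      rw [e3, div_mul_eq_div_div, div_self h0, one_div]
    -- so w or w + 1 equals 1/(θ+1)
    have e3 : (i w + (θ + 1)⁻¹) * (i w + (θ + 1)⁻¹ + 1) = 0 := by
      have : (i w + (θ + 1)⁻¹) * (i w + (θ + 1)⁻¹ + 1) =
          ((i w) ^ 2 + i w) + (((θ + 1)⁻¹) ^ 2 + (θ + 1)⁻¹) + 2 * (i w * (θ + 1)⁻¹) := by ring
      rw [this, e1, e2, CharTwo.add_self_eq_zero, CharTwo.two_eq_zero]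
      simp
    have key : ∃ v : F, i v = (θ + 1)⁻¹ := by
      rcases mul_eq_zero.1 e3 with e | e
      · exact ⟨w, CharTwo.add_eq_zero.1 e⟩
      · refine ⟨w + 1, ?_⟩
        rw [map_add, map_one]
        apply CharTwo.add_eq_zero.1
        rw [← e]; ring
    obtain ⟨v, hv⟩ := key
    have hθ : θ = i (v⁻¹ + 1) := by
      rw [map_add, map_inv₀, hv, inv_inv, map_one, add_assoc, CharTwo.add_self_eq_zero, add_zero]
    have h5 : θ ^ Fintype.card F = θ := by rw [hθ, fixF]
    rw [hs] at h5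
    apply hθ1
    apply sq_one
    rw [sq]
    nth_rw 1 [← h5]
    exact inv_mul_cancel₀ h0
  have h2 := AS' a⁻¹
  rw [h3, Finset.card_empty, Nat.cast_zero] at h2
  linear_combination -h2

end Two

end Pool.Agent.V7H66.BS
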