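import Pool.Agent.V7H66.BS.GD

/-! Piece GD: the final theorem. -/

set_option autoImplicit false
set_option linter.unusedSectionVars false

namespace Pool.Agent.V7H66.BS

open Finset Pool.Agent.V7H85.BS
open Pool.Agent.Results.MP_2c585b_nt.GoldInverseSum (chi chi_ne_one chi_equiv chi_apply)

section Gen

variable {K : Type} [Field K]

theorem D_add (θ φ : K) (h1 : θ ≠ 0) (h2 : φ ≠ 0) : D (θ * φ) + D (θ * φ⁻¹) = D θ * D φ := by
  unfold D
  field_simp
  ring

theorem D_prod [CharP K 2] (θ φ : K) (h1 : θ ≠ 0) (h2 : φ ≠ 0) :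
    D (θ * φ) * D (θ * φ⁻¹) = (D θ + D φ) ^ 2 := by
  have h : D (θ * φ) * D (θ * φ⁻¹) = D θ ^ 2 + D φ ^ 2 - 2 * 2 := by
    unfold D
    field_simp
    ring
  have h2 : (2 : K) = 0 := CharTwo.two_eq_zero
  rw [h, CharTwo.add_sq, h2]
  ring

theorem quad [CharP K 2] (θ φ x : K) (h1 : θ ≠ 0) (h2 : φ ≠ 0) :
    x ^ 2 + D θ * D φ * x + (D θ + D φ) ^ 2 = (x + D (θ * φ)) * (x + D (θ * φ⁻¹)) := by
  rw [← D_add θ φ h1 h2, ← D_prod θ φ h1 h2]
  ring

end Gen

theorem sum_two {F : Type} [Field F] [Fintype F] [DecidableEq F] (G : F → ℂ) (P : F → Prop)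
    [DecidablePred P] {c1 c2 : F} (h12 : c1 ≠ c2) (h : ∀ c, P c ↔ c = c1 ∨ c = c2) :
    (∑ c, if P c then G c else 0) = G c1 + G c2 := by
  rw [← Finset.sum_filter]
  have : univ.filter P = {c1, c2} := by
    ext c
    simp [h]
  rw [this, Finset.sum_pair h12]

theorem odd_three {n : ℕ} (hn : Odd n) : ∃ m, 2 ^ n + 1 = 3 * m := by
  obtain ⟨j, rfl⟩ := hn
  have h : (2 ^ (2 * j + 1) + 1) % 3 = 0 := by
    rw [pow_succ, pow_mul]
    have : (2 ^ 2) ^ j % 3 = 1 := by
      rw [Nat.pow_mod]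
      norm_num
    omega
  exact ⟨_, (Nat.mul_div_cancel' (Nat.dvd_of_mod_eq_zero h)).symm⟩

theorem t_GD : S_GD := by
  intro F _ _ _ _ n hodd hn
  haveI : CharP F 2 := charP_of_injective_algebraMap (algebraMap (ZMod 2) F).injective 2
  obtain ⟨m, hm⟩ := odd_three hodd
  rw [← hn] at hm
  let K := AlgebraicClosure F
  haveI : CharP K 2 := charP_of_injective_algebraMap (algebraMap F K).injective 2
  let i : F →+* K := algebraMap F K
  have type : ∀ a : F, a ≠ 0 → ∃ θ : K, θ ≠ 0 ∧ D θ = i a ∧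
      (θ ^ Fintype.card F = θ ∨ θ ^ Fintype.card F = θ⁻¹) := by
    intro a _
    obtain ⟨θ, h0, h⟩ := exists_D (i a)
    exact ⟨θ, h0, h, typ i hn h0 h⟩
  refine ⟨Gf0, Gf_sum, ?_, ?_, Gf_sq, Gf_conj⟩
  · intro c hc
    obtain ⟨θ, h0, h, hs | hs⟩ := type c hc
    · rw [Gf_S i hn hm hc h0 h hs]; simp
    · rw [chi_N i hc h0 h hs]; ring
  · intro A B
    by_cases hA : A = 0
    · subst hA
      have : ∀ c : F, c ^ 2 + 0 * B * c + (0 + B) ^ 2 = 0 ↔ c = B := by
        intro c
        rw [zero_mul, zero_mul, add_zero, zero_add, CharTwo.add_eq_zero]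
        exact sq_inj
      simp only [this, Finset.sum_ite_eq', mem_univ, if_true, Gf0, one_mul]
      simp
    by_cases hB : B = 0
    · subst hB
      have : ∀ c : F, c ^ 2 + A * 0 * c + (A + 0) ^ 2 = 0 ↔ c = A := by
        intro c
        rw [mul_zero, zero_mul, add_zero, add_zero, CharTwo.add_eq_zero]
        exact sq_inj
      simp only [this, Finset.sum_ite_eq', mem_univ, if_true, Gf0, mul_one]
      simp [hA]
    obtain ⟨θ, hθ0, hθ, tθ⟩ := type A hA
    by_cases hAB : A = B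
    · subst hAB
      have h1 : ∀ c : F, c ^ 2 + A * A * c + (A + A) ^ 2 = 0 ↔ c = 0 ∨ c = A ^ 2 := by
        intro c
        rw [CharTwo.add_self_eq_zero]
        have : c ^ 2 + A * A * c + 0 ^ 2 = c * (c + A ^ 2) := by ring
        rw [this, mul_eq_zero, CharTwo.add_eq_zero]
      rw [sum_two (Gf F) _ (fun e => hA (pow_eq_zero_iff two_ne_zero |>.1 e.symm)) h1, Gf0, Gf_sq]
      rw [if_pos ⟨rfl, hA⟩]
      rcases tθ with hs | hs
      · rw [Gf_S i hn hm hA hθ0 hθ hs, chi_S i hA hθ0 hθ hs]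
        norm_num
      · rw [Gf_N i hn hm hA hθ0 hθ hs, chi_N i hA hθ0 hθ hs]
        unfold gv
        split_ifs <;> norm_num
    · rw [if_neg (fun e => hAB e.1), sub_zero]
      obtain ⟨φ, hφ0, hφ, tφ⟩ := type B hB
      have hP : ∀ c : F, c ^ 2 + A * B * c + (A + B) ^ 2 = 0 ↔
          i c = D (θ * φ) ∨ i c = D (θ * φ⁻¹) := by
        intro c
        have h1 := quad θ φ (i c) hθ0 hφ0
        rw [hθ, hφ] at h1
        have h2 : c ^ 2 + A * B * c + (A + B) ^ 2 = 0 ↔
            i c ^ 2 + i A * i B * i c + (i A + i B) ^ 2 = 0 := by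
          rw [← map_eq_zero i]
          simp
        rw [h2, h1, mul_eq_zero, CharTwo.add_eq_zero, CharTwo.add_eq_zero]
      have hsum : D (θ * φ) + D (θ * φ⁻¹) = i (A * B) := by
        rw [D_add θ φ hθ0 hφ0, hθ, hφ, map_mul]
      have hprod : D (θ * φ) * D (θ * φ⁻¹) = i ((A + B) ^ 2) := by
        rw [D_prod θ φ hθ0 hφ0, hθ, hφ]; simp
      have hne : D (θ * φ) ≠ D (θ * φ⁻¹) := by
        intro e
        rw [e, CharTwo.add_self_eq_zero] at hsum
        have : A * B = 0 := by simpa using hsum.symm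
        rcases mul_eq_zero.1 this with h | h
        · exact hA h
        · exact hB h
      have hp0 : (A + B) ^ 2 ≠ 0 := by
        intro e
        exact hAB (CharTwo.add_eq_zero.1 (pow_eq_zero_iff two_ne_zero |>.1 e))
      -- the equal type case
      have same : D (θ * φ) ^ Fintype.card F = D (θ * φ) →
          D (θ * φ⁻¹) ^ Fintype.card F = D (θ * φ⁻¹) →
          ∃ c1 c2 : F, i c1 = D (θ * φ) ∧ i c2 = D (θ * φ⁻¹) ∧ c1 ≠ 0 ∧ c2 ≠ 0 ∧
            (∑ c, if c ^ 2 + A * B * c + (A + B) ^ 2 = 0 then Gf F c else 0) =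
              Gf F c1 + Gf F c2 := by
        intro e1 e2
        obtain ⟨c1, hc1⟩ := fix i _ e1
        obtain ⟨c2, hc2⟩ := fix i _ e2
        have hc12 : c1 * c2 = (A + B) ^ 2 := by
          apply i.injective
          rw [map_mul, hc1, hc2, hprod]
        refine ⟨c1, c2, hc1, hc2, ?_, ?_, ?_⟩
        · rintro rfl; apply hp0; rw [← hc12]; simp
        · rintro rfl; apply hp0; rw [← hc12]; simp
        · apply sum_two
          · rintro rfl; exact hne (hc1.symm.trans hc2)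
          · intro c
            rw [hP, ← hc1, ← hc2, i.injective.eq_iff, i.injective.eq_iff]
      have diff : D (θ * φ) ^ Fintype.card F = D (θ * φ⁻¹) →
          D (θ * φ⁻¹) ^ Fintype.card F = D (θ * φ) →
            (∑ c, if c ^ 2 + A * B * c + (A + B) ^ 2 = 0 then Gf F c else 0) = 0 := by
        intro e1 e2
        apply Finset.sum_eq_zero
        intro c _
        rw [if_neg]
        rw [hP]
        rintro (h | h)
        · have := fixF i c
          rw [h, e1] at this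
          exact hne this.symm
        · have := fixF i c
          rw [h, e2] at this
          exact hne this
      have pw : ∀ x : K, D x ^ Fintype.card F = D (x ^ Fintype.card F) := D_card hn
      rcases tθ with hs | hs <;> rcases tφ with ht | ht
      · obtain ⟨c1, c2, hc1, hc2, n1, n2, hsm⟩ := same
          (by rw [pw, mul_pow, hs, ht]) (by rw [pw, mul_pow, inv_pow, hs, ht])
        rw [hsm, Gf_S i hn hm hA hθ0 hθ hs, zero_mul,
          Gf_S i hn hm n1 (mul_ne_zero hθ0 hφ0) hc1.symm (by rw [mul_pow, hs, ht]),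
          Gf_S i hn hm n2 (mul_ne_zero hθ0 (inv_ne_zero hφ0)) hc2.symm
            (by rw [mul_pow, inv_pow, hs, ht]), add_zero]
      · rw [diff (by rw [pw, mul_pow, hs, ht]) (by rw [pw, mul_pow, inv_pow, hs, ht, inv_inv]),
          Gf_S i hn hm hA hθ0 hθ hs, zero_mul]
      · rw [diff (by rw [pw, mul_pow, hs, ht, ← D_inv, mul_inv, inv_inv])
          (by rw [pw, mul_pow, inv_pow, hs, ht, ← D_inv, mul_inv, inv_inv, inv_inv]),
          Gf_S i hn hm hB hφ0 hφ ht, mul_zero]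
      · have e1 : (θ * φ) ^ Fintype.card F = (θ * φ)⁻¹ := by rw [mul_pow, hs, ht, mul_inv]
        have e2 : (θ * φ⁻¹) ^ Fintype.card F = (θ * φ⁻¹)⁻¹ := by
          rw [mul_pow, inv_pow, hs, ht, mul_inv]
        obtain ⟨c1, c2, hc1, hc2, n1, n2, hsm⟩ := same
          (by rw [pw, e1, D_inv]) (by rw [pw, e2, D_inv])
        rw [hsm, Gf_N i hn hm hA hθ0 hθ hs, Gf_N i hn hm hB hφ0 hφ ht,
          Gf_N i hn hm n1 (mul_ne_zero hθ0 hφ0) hc1.symm e1,
          Gf_N i hn hm n2 (mul_ne_zero hθ0 (inv_ne_zero hφ0)) hc2.symm e2]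
        exact gv_mul hm hθ0 hφ0 hs ht

end Pool.Agent.V7H66.BS
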