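import Pool.Agent.V7H85.BS.Base

/-! Set-up for the pieces GD and CNT: the parametrisation `a = θ + θ⁻¹`. -/

set_option autoImplicit false

namespace Pool.Agent.V7H66.BS

open Finset

section Gen

variable {K : Type} [Field K]

/-- `x + 1/x` -/
noncomputable def D (x : K) : K := x + x⁻¹

theorem D_inv (x : K) : D x⁻¹ = D x := by simp [D, add_comm]

theorem D_eq {x y : K} (hx : x ≠ 0) (hy : y ≠ 0) (h : D x = D y) : x = y ∨ x = y⁻¹ := by
  have h1 : (x - y) * (x * y - 1) = 0 := by
    have h2 : x * y * (D x) = x * y * (D y) := by rw [h]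
    unfold D at h2
    have h3 : x * y * (x + x⁻¹) = x * x * y + y := by field_simp
    have h4 : x * y * (y + y⁻¹) = x * y * y + x := by field_simp
    rw [h3, h4] at h2
    linear_combination h2
  rcases mul_eq_zero.1 h1 with h | h
  · exact Or.inl (sub_eq_zero.1 h)
  · exact Or.inr (eq_inv_of_mul_eq_one_left (sub_eq_zero.1 h))

theorem exists_D [IsAlgClosed K] (a : K) : ∃ θ : K, θ ≠ 0 ∧ D θ = a := by
  obtain ⟨θ, hθ⟩ := IsAlgClosed.exists_root (Polynomial.X ^ 2 - Polynomial.C a * Polynomial.X + 1)
    (by
      have : (Polynomial.X ^ 2 - Polynomial.C a * Polynomial.X + 1 : Polynomial K).degree = 2 := by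
        have : (Polynomial.X ^ 2 - Polynomial.C a * Polynomial.X + 1 : Polynomial K) =
          Polynomial.C 1 * Polynomial.X ^ 2 + Polynomial.C (-a) * Polynomial.X +
            Polynomial.C 1 := by simp; ring
        rw [this]
        exact Polynomial.degree_quadratic one_ne_zero
      rw [this]; decide)
  have h1 : θ ^ 2 - a * θ + 1 = 0 := by simpa using hθ
  have h0 : θ ≠ 0 := by
    rintro rfl
    simp at h1
  refine ⟨θ, h0, ?_⟩
  unfold D
  field_simp
  linear_combination h1

variable [CharP K 2]

theorem D_one : D (1 : K) = 0 := by simp [D, CharTwo.add_self_eq_zero]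

theorem D_eq_zero {x : K} (hx : x ≠ 0) (h : D x = 0) : x = 1 := by
  rcases D_eq hx one_ne_zero (h.trans D_one.symm) with h | h
  · exact h
  · simpa using h

theorem D_pow (x : K) (k : ℕ) : D x ^ 2 ^ k = D (x ^ 2 ^ k) := by
  unfold D
  rw [add_pow_char_pow, inv_pow]

theorem sq_one {x : K} (h : x ^ 2 = 1) : x = 1 := by
  have : (x + 1) ^ 2 = 0 := by rw [CharTwo.add_sq, h]; simp [CharTwo.add_self_eq_zero]
  exact CharTwo.add_eq_zero.1 (pow_eq_zero_iff (two_ne_zero) |>.1 this)

theorem pow_one' {x : K} (k : ℕ) (h : x ^ 2 ^ k = 1) : x = 1 := by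
  induction k with
  | zero => simpa using h
  | succ k ih =>
    apply ih
    rw [pow_succ, pow_mul] at h
    exact sq_one h

end Gen

section Fin

variable {F : Type} [Field F] [Fintype F] [DecidableEq F] {K : Type} [Field K] (i : F →+* K)

omit [DecidableEq F] in
theorem fix (x : K) (h : x ^ Fintype.card F = x) : ∃ y, i y = x := by
  classical
  by_contra hne
  push Not at hne
  have hQ : 1 < Fintype.card F := Fintype.one_lt_card
  have hp : (Polynomial.X ^ Fintype.card F - Polynomial.X : Polynomial K) ≠ 0 :=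
    FiniteField.X_pow_card_sub_X_ne_zero K hQ
  have hdeg : (Polynomial.X ^ Fintype.card F - Polynomial.X : Polynomial K).natDegree =
      Fintype.card F := FiniteField.X_pow_card_sub_X_natDegree_eq K hQ
  have hS : (insert x (Finset.univ.image i)) ⊆
      (Polynomial.X ^ Fintype.card F - Polynomial.X : Polynomial K).roots.toFinset := by
    intro y hy
    rw [Multiset.mem_toFinset, Polynomial.mem_roots hp]
    rw [Finset.mem_insert, Finset.mem_image] at hy
    rcases hy with hy | ⟨z, _, hz⟩
    · subst hy
      simp [h]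
    · subst hz
      simp [← map_pow, FiniteField.pow_card]
  have h1 := Finset.card_le_card hS
  rw [Finset.card_insert_of_notMem, Finset.card_image_of_injective _ i.injective,
    Finset.card_univ] at h1
  · have h2 := Multiset.toFinset_card_le
      (Polynomial.X ^ Fintype.card F - Polynomial.X : Polynomial K).roots
    have h3 := Polynomial.card_roots' (Polynomial.X ^ Fintype.card F - Polynomial.X : Polynomial K)
    omega
  · intro hx
    rw [Finset.mem_image] at hx
    obtain ⟨z, _, hz⟩ := hx
    exact hne z hz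

omit [DecidableEq F] in
theorem fixF (y : F) : i y ^ Fintype.card F = i y := by
  rw [← map_pow, FiniteField.pow_card]

variable [CharP K 2]

theorem D_card {n : ℕ} (hn : Fintype.card F = 2 ^ n) (x : K) :
    D x ^ Fintype.card F = D (x ^ Fintype.card F) := by
  rw [hn, D_pow]

omit [DecidableEq F] in
theorem typ {n : ℕ} (hn : Fintype.card F = 2 ^ n) {a : F} {θ : K} (h0 : θ ≠ 0) (h : D θ = i a) :
    θ ^ Fintype.card F = θ ∨ θ ^ Fintype.card F = θ⁻¹ := by
  refine D_eq (pow_ne_zero _ h0) h0 ?_
  rw [hn, ← D_pow, ← hn, h, fixF]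

end Fin

end Pool.Agent.V7H66.BS
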